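import Mathlib

/-!
The set `S(7,3)` of sizes of maximal antichains of `B_7` on levels 3 and 4 has minimum 14 (lines of
the Fano plane and their complements) but does not contain 15, although `T(7,3) = 29`.
-/

set_option autoImplicit false

namespace Pool.Agent.Results.MP_6c6cee_co.Gap

open Finset

/-- `𝒜` is a maximal antichain of the Boolean lattice of all subsets of `Fin n`: it is an antichain
and no subset outside `𝒜` can be added while keeping the antichain property. -/
def IsMaxAntichain {n : ℕ} (𝒜 : Finset (Finset (Fin n))) : Prop :=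
  IsAntichain (· ⊆ ·) (𝒜 : Set (Finset (Fin n))) ∧
    ∀ T : Finset (Fin n), T ∉ 𝒜 →
      ¬ IsAntichain (· ⊆ ·) ((insert T 𝒜 : Finset (Finset (Fin n))) : Set (Finset (Fin n)))

/-- The set `S(n,l)` of sizes of maximal antichains of `B_n` contained in levels `l`, `l + 1`. -/
def S (n l : ℕ) : Set ℕ :=
  {m | ∃ 𝒜 : Finset (Finset (Fin n)), (∀ A ∈ 𝒜, A.card = l ∨ A.card = l + 1) ∧
    IsMaxAntichain 𝒜 ∧ 𝒜.card = m}

/-- The threshold `T(n,l) = C(n,l+1) - (n-l-1) ⌈(n-l)/2⌉`. -/
def T (n l : ℕ) : ℤ :=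
  (n.choose (l + 1) : ℤ) - ((n : ℤ) - l - 1) * ⌈((n : ℚ) - l) / 2⌉

lemma comparable_of_max {n : ℕ} {𝒜 : Finset (Finset (Fin n))} (h : IsMaxAntichain 𝒜)
    {X : Finset (Fin n)} (hX : X ∉ 𝒜) : ∃ A ∈ 𝒜, A ⊆ X ∨ X ⊆ A := by
  by_contra hcon
  push Not at hcon
  apply h.2 X hX
  intro A hA B hB hne
  rw [mem_coe, mem_insert] at hA hB
  rcases hA with rfl | hA
  · rcases hB with rfl | hB
    · exact absurd rfl hne
    · exact (hcon B hB).2
  · rcases hB with rfl | hB
    · exact (hcon A hA).1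
    · exact h.1 hA hB hne

/-- number of members of `𝒢` inside `B` -/
def c (𝒢 : Finset (Finset (Fin 7))) (B : Finset (Fin 7)) : ℕ := (𝒢.filter (fun G => G ⊆ B)).card

/-- number of members of `𝒢` containing `P` -/
def mu (𝒢 : Finset (Finset (Fin 7))) (P : Finset (Fin 7)) : ℕ := (𝒢.filter (fun G => P ⊆ G)).card

lemma card_supersets (G : Finset (Fin 7)) (hG : G.card = 3) :
    ((powersetCard 4 (univ : Finset (Fin 7))).filter (fun B => G ⊆ B)).card = 4 := by
  have h1 : (powersetCard 4 (univ : Finset (Fin 7))).filter (fun B => G ⊆ B) =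
      (univ \ G).image (fun x => insert x G) := by
    ext B
    rw [mem_filter, mem_powersetCard, mem_image]
    constructor
    · rintro ⟨⟨-, hB⟩, hGB⟩
      have h2 : (B \ G).card = 1 := by rw [card_sdiff_of_subset hGB, hB, hG]
      obtain ⟨x, hx⟩ := card_eq_one.1 h2
      have hxB : x ∈ B \ G := by rw [hx]; exact mem_singleton_self x
      rw [mem_sdiff] at hxB
      refine ⟨x, mem_sdiff.2 ⟨mem_univ _, hxB.2⟩, ?_⟩
      rw [insert_eq, ← hx, sdiff_union_of_subset hGB]
    · rintro ⟨x, hx, rfl⟩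
      rw [mem_sdiff] at hx
      refine ⟨⟨subset_univ _, ?_⟩, subset_insert x G⟩
      rw [card_insert_of_notMem hx.2, hG]
  rw [h1, card_image_of_injOn, card_sdiff_of_subset (subset_univ G), hG]
  · simp
  · intro x hx y hy hxy
    rw [mem_coe, mem_sdiff] at hx hy
    by_contra hne
    have hxy' : insert x G = insert y G := hxy
    have : x ∈ insert y G := by
      rw [← hxy']
      exact mem_insert_self x G
    rw [mem_insert] at this
    rcases this with h | h
    · exact hne h
    · exact hx.2 h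

lemma sum_c {𝒢 : Finset (Finset (Fin 7))} (h3 : ∀ G ∈ 𝒢, G.card = 3) :
    ∑ B ∈ powersetCard 4 (univ : Finset (Fin 7)), c 𝒢 B = 4 * 𝒢.card := by
  unfold c
  simp only [card_filter]
  rw [sum_comm]
  have : ∀ G ∈ 𝒢, ∑ B ∈ powersetCard 4 (univ : Finset (Fin 7)), (if G ⊆ B then 1 else 0) = 4 := by
    intro G hG
    rw [← card_filter]
    exact card_supersets G (h3 G hG)
  rw [sum_congr rfl this, sum_const, smul_eq_mul, mul_comm]

lemma sum_mu {𝒢 : Finset (Finset (Fin 7))} (h3 : ∀ G ∈ 𝒢, G.card = 3) :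
    ∑ P ∈ powersetCard 2 (univ : Finset (Fin 7)), mu 𝒢 P = 3 * 𝒢.card := by
  unfold mu
  simp only [card_filter]
  rw [sum_comm]
  have : ∀ G ∈ 𝒢, ∑ P ∈ powersetCard 2 (univ : Finset (Fin 7)), (if P ⊆ G then 1 else 0) = 3 := by
    intro G hG
    rw [← card_filter]
    have h1 : (powersetCard 2 (univ : Finset (Fin 7))).filter (fun P => P ⊆ G) =
        powersetCard 2 G := by
      ext P
      simp only [mem_filter, mem_powersetCard, subset_univ, true_and]
      tauto
    rw [h1, card_powersetCard, h3 G hG]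
    rfl
  rw [sum_congr rfl this, sum_const, smul_eq_mul, mul_comm]

/-- pairs inside `G` through `p` -/
lemma card_pairs_through (G : Finset (Fin 7)) (p : Fin 7) (hp : p ∈ G) :
    ((powersetCard 2 (univ : Finset (Fin 7))).filter (fun P => p ∈ P ∧ P ⊆ G)).card =
      G.card - 1 := by
  have h1 : (powersetCard 2 (univ : Finset (Fin 7))).filter (fun P => p ∈ P ∧ P ⊆ G) =
      (G.erase p).image (fun x => {p, x}) := by
    ext P
    rw [mem_filter, mem_powersetCard, mem_image]
    constructor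
    · rintro ⟨⟨-, hP⟩, hpP, hPG⟩
      have h2 : (P.erase p).card = 1 := by rw [card_erase_of_mem hpP, hP]
      obtain ⟨x, hx⟩ := card_eq_one.1 h2
      have hxP : x ∈ P.erase p := by rw [hx]; exact mem_singleton_self x
      rw [mem_erase] at hxP
      refine ⟨x, mem_erase.2 ⟨hxP.1, hPG hxP.2⟩, ?_⟩
      rw [← hx, insert_erase hpP]
    · rintro ⟨x, hx, rfl⟩
      rw [mem_erase] at hx
      refine ⟨⟨subset_univ _, card_pair hx.1.symm⟩, mem_insert_self _ _, ?_⟩
      intro y hy
      rw [mem_insert, mem_singleton] at hy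
      rcases hy with rfl | rfl
      · exact hp
      · exact hx.2
  rw [h1, card_image_of_injOn, card_erase_of_mem hp]
  intro x hx y hy hxy
  rw [mem_coe, mem_erase] at hx hy
  have hxy' : ({p, x} : Finset (Fin 7)) = {p, y} := hxy
  have h3 : x ∈ ({p, y} : Finset (Fin 7)) := by
    rw [← hxy']
    simp
  rw [mem_insert, mem_singleton] at h3
  rcases h3 with h | h
  · exact absurd h hx.1
  · exact h

lemma sum_mu_through {𝒢 : Finset (Finset (Fin 7))} (h3 : ∀ G ∈ 𝒢, G.card = 3) (p : Fin 7) :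
    ∑ P ∈ (powersetCard 2 (univ : Finset (Fin 7))).filter (fun P => p ∈ P), mu 𝒢 P =
      2 * (𝒢.filter (fun G => p ∈ G)).card := by
  unfold mu
  simp only [card_filter]
  rw [sum_comm, mul_sum]
  apply sum_congr rfl
  intro G hG
  rw [← card_filter, filter_filter]
  by_cases hp : p ∈ G
  · rw [if_pos hp, card_pairs_through G p hp, h3 G hG]
    rfl
  · rw [if_neg hp]
    simp only [mul_zero, card_eq_zero]
    apply filter_eq_empty_iff.2
    rintro P - ⟨h1, h2⟩
    exact hp (h2 h1)

lemma card_through (p : Fin 7) :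
    ((powersetCard 2 (univ : Finset (Fin 7))).filter (fun P => p ∈ P)).card = 6 := by
  have h := card_pairs_through univ p (mem_univ p)
  simp only [subset_univ, and_true] at h
  rw [h]
  simp

/-- the core: seven triples cannot leave exactly eight 4-sets uncovered -/
lemma core {𝒢 : Finset (Finset (Fin 7))} (h3 : ∀ G ∈ 𝒢, G.card = 3) (h7 : 𝒢.card = 7)
    (h8 : ((powersetCard 4 (univ : Finset (Fin 7))).filter (fun B => c 𝒢 B = 0)).card = 8) :
    False := by
  set Q := powersetCard 4 (univ : Finset (Fin 7)) with hQ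
  have hQc : Q.card = 35 := by rw [hQ, card_powersetCard]; rfl
  have hsum := sum_c h3
  rw [h7, ← hQ] at hsum
  set Q1 := Q.filter (fun B => ¬ c 𝒢 B = 0) with hQ1
  have hQ1c : Q1.card = 27 := by
    have := card_filter_add_card_filter_not (s := Q) (fun B => c 𝒢 B = 0)
    rw [h8, hQc, ← hQ1] at this
    omega
  have hsum1 : ∑ B ∈ Q1, c 𝒢 B = 28 := by
    have h := sum_filter_add_sum_filter_not Q (fun B => c 𝒢 B = 0) (fun B => c 𝒢 B)
    have h0 : ∑ B ∈ Q.filter (fun B => c 𝒢 B = 0), c 𝒢 B = 0 := by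
      apply sum_eq_zero
      intro B hB
      exact (mem_filter.1 hB).2
    rw [h0, hsum, zero_add, ← hQ1] at h
    exact h
  -- there is B₀ with c = 2, all others ≤ 1
  obtain ⟨B0, hB0, hcB0⟩ : ∃ B0 ∈ Q1, 2 ≤ c 𝒢 B0 := by
    by_contra hcon
    push Not at hcon
    have : ∑ B ∈ Q1, c 𝒢 B ≤ ∑ B ∈ Q1, 1 := by
      apply sum_le_sum
      intro B hB
      have := hcon B hB
      omega
    rw [hsum1, sum_const, hQ1c] at this
    norm_num at this
  have hrest : ∑ B ∈ Q1.erase B0, c 𝒢 B + c 𝒢 B0 = 28 := by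
    rw [sum_erase_add _ _ hB0, hsum1]
  have hrestc : (Q1.erase B0).card = 26 := by rw [card_erase_of_mem hB0, hQ1c]
  have hge1 : ∀ B ∈ Q1.erase B0, 1 ≤ c 𝒢 B := by
    intro B hB
    have := (mem_filter.1 (mem_of_mem_erase hB)).2
    omega
  have hge : 26 ≤ ∑ B ∈ Q1.erase B0, c 𝒢 B := by
    have : ∑ B ∈ Q1.erase B0, 1 ≤ ∑ B ∈ Q1.erase B0, c 𝒢 B := sum_le_sum hge1
    rw [sum_const, hrestc] at this
    simpa using this
  have hc2 : c 𝒢 B0 = 2 := by omega
  have hrest26 : ∑ B ∈ Q1.erase B0, c 𝒢 B = 26 := by omega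
  have hle1 : ∀ B ∈ Q, B ≠ B0 → c 𝒢 B ≤ 1 := by
    intro B hB hne
    by_contra hgt
    push Not at hgt
    have hB1 : B ∈ Q1.erase B0 := mem_erase.2 ⟨hne, mem_filter.2 ⟨hB, by omega⟩⟩
    have h := sum_erase_add _ (fun B => c 𝒢 B) hB1
    have h' : ∑ B ∈ (Q1.erase B0).erase B, 1 ≤ ∑ B ∈ (Q1.erase B0).erase B, c 𝒢 B :=
      sum_le_sum (fun X hX => hge1 X (mem_of_mem_erase hX))
    rw [sum_const, card_erase_of_mem hB1, hrestc] at h'
    simp only [smul_eq_mul, mul_one] at h'
    omega
  -- two distinct members in a 4-set force B = B₀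
  have hforce : ∀ G ∈ 𝒢, ∀ G' ∈ 𝒢, G ≠ G' → 2 ≤ (G ∩ G').card → G ∪ G' = B0 := by
    intro G hG G' hG' hne hint
    have hcu : (G ∪ G').card = 4 := by
      have h1 := card_union_add_card_inter G G'
      have h2 := h3 G hG
      have h2' := h3 G' hG'
      have h4 : (G ∩ G').card ≤ 2 := by
        by_contra h5
        push Not at h5
        have h6 : G ∩ G' = G := eq_of_subset_of_card_le inter_subset_left (by omega)
        have h7 : G ∩ G' = G' := eq_of_subset_of_card_le inter_subset_right (by omega)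
        exact hne (h6.symm.trans h7)
      omega
    by_contra hne'
    have h1 := hle1 (G ∪ G') (mem_powersetCard.2 ⟨subset_univ _, hcu⟩) hne'
    have h2 : ({G, G'} : Finset (Finset (Fin 7))) ⊆ 𝒢.filter (fun X => X ⊆ G ∪ G') := by
      intro X hX
      rw [mem_insert, mem_singleton] at hX
      rcases hX with rfl | rfl
      · exact mem_filter.2 ⟨hG, subset_union_left⟩
      · exact mem_filter.2 ⟨hG', subset_union_right⟩
    have h3' := card_le_card h2
    rw [card_pair hne] at h3'
    have h4 : (𝒢.filter (fun X => X ⊆ G ∪ G')).card ≤ 1 := h1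
    omega
  obtain ⟨G1, G2, hG12, hpair⟩ := card_eq_two.1 hc2
  have hG1 : G1 ∈ 𝒢 ∧ G1 ⊆ B0 := by
    have : G1 ∈ 𝒢.filter (fun X => X ⊆ B0) := by rw [hpair]; simp
    exact mem_filter.1 this
  have hG2 : G2 ∈ 𝒢 ∧ G2 ⊆ B0 := by
    have : G2 ∈ 𝒢.filter (fun X => X ⊆ B0) := by rw [hpair]; simp
    exact mem_filter.1 this
  have hB0c : B0.card = 4 := (mem_powersetCard.1 (mem_filter.1 hB0).1).2
  set P0 := G1 ∩ G2 with hP0
  have hP0c : P0.card = 2 := by
    have h1 := card_union_add_card_inter G1 G2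
    have h2 := card_le_card (union_subset hG1.2 hG2.2)
    have h4 := h3 G1 hG1.1
    have h5 := h3 G2 hG2.1
    have h6 : (G1 ∩ G2).card ≤ 2 := by
      by_contra h5'
      push Not at h5'
      have h6 : G1 ∩ G2 = G1 := eq_of_subset_of_card_le inter_subset_left (by omega)
      have h7 : G1 ∩ G2 = G2 := eq_of_subset_of_card_le inter_subset_right (by omega)
      exact hG12 (h6.symm.trans h7)
    rw [hP0]
    omega
  have hfst : ∀ G ∈ 𝒢, G ⊆ B0 → G = G1 ∨ G = G2 := by
    intro G hG hGB
    have : G ∈ 𝒢.filter (fun X => X ⊆ B0) := mem_filter.2 ⟨hG, hGB⟩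
    rw [hpair] at this
    simpa using this
  have hmu0 : mu 𝒢 P0 = 2 := by
    have h1 : 𝒢.filter (fun G => P0 ⊆ G) = {G1, G2} := by
      ext G
      rw [mem_filter, mem_insert, mem_singleton]
      constructor
      · rintro ⟨hG, hPG⟩
        by_cases hGG1 : G = G1
        · exact Or.inl hGG1
        · have h2 : P0 ⊆ G ∩ G1 := subset_inter hPG inter_subset_left
          have h3' := card_le_card h2
          have h4 := hforce G hG G1 hG1.1 hGG1 (by omega)
          exact hfst G hG (h4 ▸ subset_union_left)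
      · rintro (rfl | rfl)
        · exact ⟨hG1.1, inter_subset_left⟩
        · exact ⟨hG2.1, inter_subset_right⟩
    unfold mu
    rw [h1, card_pair hG12]
  have hmule : ∀ P ∈ powersetCard 2 (univ : Finset (Fin 7)), P ≠ P0 → mu 𝒢 P ≤ 1 := by
    intro P hP hne
    by_contra hgt
    push Not at hgt
    have hPc := (mem_powersetCard.1 hP).2
    obtain ⟨G, hG, G', hG', hGG'⟩ := one_lt_card.1 (show 1 < (𝒢.filter (fun G => P ⊆ G)).card
      from hgt)
    rw [mem_filter] at hG hG'
    have h2 : P ⊆ G ∩ G' := subset_inter hG.2 hG'.2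
    have h3' := card_le_card h2
    have h4 := hforce G hG.1 G' hG'.1 hGG' (by omega)
    have hGB : G ⊆ B0 := h4 ▸ subset_union_left
    have hGB' : G' ⊆ B0 := h4 ▸ subset_union_right
    have h5 : P ⊆ P0 := by
      rcases hfst G hG.1 hGB with rfl | rfl <;> rcases hfst G' hG'.1 hGB' with rfl | rfl
      · exact absurd rfl hGG'
      · exact h2
      · rw [hP0, inter_comm]; exact h2
      · exact absurd rfl hGG'
    exact hne (eq_of_subset_of_card_le h5 (by omega))
  -- the unique uncovered pair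
  set R := powersetCard 2 (univ : Finset (Fin 7)) with hR
  have hRc : R.card = 21 := by rw [hR, card_powersetCard]; rfl
  have hP0R : P0 ∈ R := mem_powersetCard.2 ⟨subset_univ _, hP0c⟩
  have hsmu := sum_mu h3
  rw [h7, ← hR] at hsmu
  have hsmu' : ∑ P ∈ R.erase P0, mu 𝒢 P = 19 := by
    have := sum_erase_add _ (fun P => mu 𝒢 P) hP0R
    simp only [hmu0] at this
    omega
  obtain ⟨P1, hP1, hmu1⟩ : ∃ P1 ∈ R.erase P0, mu 𝒢 P1 = 0 := by
    by_contra hcon
    push Not at hcon
    have : ∑ P ∈ R.erase P0, 1 ≤ ∑ P ∈ R.erase P0, mu 𝒢 P := by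
      apply sum_le_sum
      intro P hP
      have := hcon P hP
      omega
    rw [sum_const, card_erase_of_mem hP0R, hRc, hsmu'] at this
    norm_num at this
  have hothers : ∀ P ∈ R, P ≠ P0 → P ≠ P1 → mu 𝒢 P = 1 := by
    intro P hP hne hne1
    have hPe : P ∈ (R.erase P0).erase P1 := mem_erase.2 ⟨hne1, mem_erase.2 ⟨hne, hP⟩⟩
    have hle := hmule P hP hne
    by_contra h1
    have h0 : mu 𝒢 P = 0 := by omega
    have e1 := sum_erase_add _ (fun P => mu 𝒢 P) hP1
    have e2 := sum_erase_add _ (fun P => mu 𝒢 P) hPe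
    have e3 : ∑ X ∈ ((R.erase P0).erase P1).erase P, mu 𝒢 X ≤
        ∑ X ∈ ((R.erase P0).erase P1).erase P, 1 := by
      apply sum_le_sum
      intro X hX
      have hX1 := mem_of_mem_erase hX
      have hX2 := mem_of_mem_erase hX1
      exact hmule X (mem_of_mem_erase hX2) (ne_of_mem_erase hX2)
    rw [sum_const, card_erase_of_mem hPe, card_erase_of_mem hP1, card_erase_of_mem hP0R,
      hRc] at e3
    simp only [smul_eq_mul, mul_one] at e3
    simp only [hmu1, h0] at e1 e2
    omega
  have hP1R : P1 ∈ R := mem_of_mem_erase hP1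
  have hne01 : P1 ≠ P0 := ne_of_mem_erase hP1
  have hform : ∀ P ∈ R, mu 𝒢 P + (if P = P1 then 1 else 0) = 1 + (if P = P0 then 1 else 0) := by
    intro P hP
    by_cases ha : P = P0
    · subst ha
      rw [if_pos rfl, if_neg (Ne.symm hne01), hmu0]
    · by_cases hb : P = P1
      · subst hb
        rw [if_pos rfl, if_neg ha, hmu1]
      · rw [if_neg ha, if_neg hb, hothers P hP ha hb]
  have hpar : ∀ p : Fin 7, p ∈ P1 ↔ p ∈ P0 := by
    intro p
    have h1 : ∑ P ∈ R.filter (fun P => p ∈ P), (mu 𝒢 P + (if P = P1 then 1 else 0)) =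
        ∑ P ∈ R.filter (fun P => p ∈ P), (1 + (if P = P0 then 1 else 0)) :=
      sum_congr rfl (fun P hP => hform P (mem_filter.1 hP).1)
    rw [sum_add_distrib, sum_add_distrib, sum_ite_eq', sum_ite_eq', sum_mu_through h3 p,
      sum_const, card_through p] at h1
    simp only [mem_filter, hP1R, hP0R, true_and, smul_eq_mul, mul_one] at h1
    by_cases hp1 : p ∈ P1 <;> by_cases hp0 : p ∈ P0 <;> simp only [hp1, hp0, if_true, if_false] at h1 ⊢ <;> omega
  exact hne01 (Finset.ext hpar)

/-- what the counting needs from a maximal antichain on levels 3 and 4 -/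
lemma structure_of_max {𝒜 : Finset (Finset (Fin 7))}
    (hl : ∀ A ∈ 𝒜, A.card = 3 ∨ A.card = 4) (hmax : IsMaxAntichain 𝒜) :
    ∃ 𝒢 ℋ : Finset (Finset (Fin 7)), 𝒢.card + ℋ.card = 𝒜.card ∧
      (∀ G ∈ 𝒢, G.card = 3) ∧ (∀ H ∈ ℋ, H.card = 3) ∧
      ((powersetCard 4 (univ : Finset (Fin 7))).filter (fun B => c 𝒢 B = 0)).card = ℋ.card ∧
      ((powersetCard 4 (univ : Finset (Fin 7))).filter (fun B => c ℋ B = 0)).card = 𝒢.card := by
  have hcompl : Function.Injective (fun B : Finset (Fin 7) => Bᶜ) := compl_injective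
  refine ⟨𝒜.filter (fun A => A.card = 3), (𝒜.filter (fun A => ¬ A.card = 3)).image (fun B => Bᶜ),
    ?_, ?_, ?_, ?_, ?_⟩
  · rw [card_image_of_injective _ hcompl, card_filter_add_card_filter_not]
  · intro G hG
    exact (mem_filter.1 hG).2
  · intro H hH
    obtain ⟨B, hB, rfl⟩ := mem_image.1 hH
    rw [mem_filter] at hB
    rw [card_compl, Fintype.card_fin]
    rcases hl B hB.1 with h | h
    · exact absurd h hB.2
    · omega
  · rw [card_image_of_injective _ hcompl]
    congr 1
    ext B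
    rw [mem_filter, mem_filter, mem_powersetCard]
    constructor
    · rintro ⟨⟨-, hB⟩, hc⟩
      refine ⟨?_, by omega⟩
      by_contra hBA
      obtain ⟨A, hA, hAB⟩ := comparable_of_max hmax hBA
      rcases hAB with h | h
      · have hA3 : A.card = 3 := by
          rcases hl A hA with h3 | h4
          · exact h3
          · exact absurd (eq_of_subset_of_card_le h (by omega) ▸ hA) hBA
        have : A ∈ (𝒜.filter (fun A => A.card = 3)).filter (fun G => G ⊆ B) :=
          mem_filter.2 ⟨mem_filter.2 ⟨hA, hA3⟩, h⟩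
        have h0 := card_pos.2 ⟨A, this⟩
        have h1 : ((𝒜.filter (fun A => A.card = 3)).filter (fun G => G ⊆ B)).card = 0 := hc
        omega
      · have hA4 : A.card = 4 := by
          rcases hl A hA with h3 | h4
          · have := card_le_card h
            omega
          · exact h4
        exact hBA (eq_of_subset_of_card_le h (by omega) ▸ hA)
    · rintro ⟨hB, hB3⟩
      have hB4 : B.card = 4 := by
        rcases hl B hB with h | h
        · exact absurd h hB3
        · exact h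
      refine ⟨⟨subset_univ _, hB4⟩, ?_⟩
      have : (𝒜.filter (fun A => A.card = 3)).filter (fun G => G ⊆ B) = ∅ := by
        apply filter_eq_empty_iff.2
        intro G hG hGB
        rw [mem_filter] at hG
        have hne : G ≠ B := by
          rintro rfl
          omega
        exact hmax.1 hG.1 hB hne hGB
      unfold c
      rw [this]
      rfl
  · have himg : (powersetCard 4 (univ : Finset (Fin 7))).filter (fun B =>
        c ((𝒜.filter (fun A => ¬ A.card = 3)).image (fun B => Bᶜ)) B = 0) =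
        (𝒜.filter (fun A => A.card = 3)).image (fun B => Bᶜ) := by
      ext B
      rw [mem_filter, mem_powersetCard, mem_image]
      constructor
      · rintro ⟨⟨-, hB⟩, hc⟩
        refine ⟨Bᶜ, ?_, compl_compl B⟩
        have hBc : Bᶜ.card = 3 := by rw [card_compl, Fintype.card_fin, hB]
        rw [mem_filter]
        refine ⟨?_, hBc⟩
        by_contra hBA
        obtain ⟨A, hA, hAB⟩ := comparable_of_max hmax hBA
        rcases hAB with h | h
        · have hA3 : A.card = 3 := by
            rcases hl A hA with h3 | h4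
            · exact h3
            · have := card_le_card h
              omega
          exact hBA (eq_of_subset_of_card_le h (by omega) ▸ hA)
        · have hA4 : ¬ A.card = 3 := by
            intro hA3
            exact hBA (eq_of_subset_of_card_le h (by omega) ▸ hA)
          have : Aᶜ ∈ ((𝒜.filter (fun A => ¬ A.card = 3)).image (fun B => Bᶜ)).filter
              (fun G => G ⊆ B) := by
            rw [mem_filter, mem_image]
            refine ⟨⟨A, mem_filter.2 ⟨hA, hA4⟩, rfl⟩, ?_⟩
            rw [← compl_compl B]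
            exact compl_subset_compl.2 h
          have h0 := card_pos.2 ⟨_, this⟩
          have h1 : (((𝒜.filter (fun A => ¬ A.card = 3)).image (fun B => Bᶜ)).filter
              (fun G => G ⊆ B)).card = 0 := hc
          omega
      · rintro ⟨G, hG, rfl⟩
        rw [mem_filter] at hG
        refine ⟨⟨subset_univ _, by rw [card_compl, Fintype.card_fin, hG.2]⟩, ?_⟩
        have : ((𝒜.filter (fun A => ¬ A.card = 3)).image (fun B => Bᶜ)).filter
              (fun X => X ⊆ Gᶜ) = ∅ := by
          apply filter_eq_empty_iff.2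
          intro X hX hXG
          obtain ⟨B, hB, rfl⟩ := mem_image.1 hX
          rw [mem_filter] at hB
          have h1 : G ⊆ B := compl_subset_compl.1 hXG
          have hne : G ≠ B := by
            rintro rfl
            exact hB.2 hG.2
          exact hmax.1 hG.1 hB.1 hne h1
        unfold c
        rw [this]
        rfl
    rw [himg, card_image_of_injective _ hcompl]

/-- the basic counting inequality -/
lemma count_ineq {𝒢 : Finset (Finset (Fin 7))} (h3 : ∀ G ∈ 𝒢, G.card = 3) {h : ℕ}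
    (h8 : ((powersetCard 4 (univ : Finset (Fin 7))).filter (fun B => c 𝒢 B = 0)).card = h) :
    35 ≤ 4 * 𝒢.card + h := by
  have h1 := card_filter_add_card_filter_not (s := powersetCard 4 (univ : Finset (Fin 7)))
    (fun B => c 𝒢 B = 0)
  have h2 : (powersetCard 4 (univ : Finset (Fin 7))).card = 35 := by rw [card_powersetCard]; rfl
  rw [h8, h2] at h1
  have h4 : ∑ B ∈ (powersetCard 4 (univ : Finset (Fin 7))).filter (fun B => ¬ c 𝒢 B = 0), 1 ≤
      ∑ B ∈ powersetCard 4 (univ : Finset (Fin 7)), c 𝒢 B := by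
    refine (sum_le_sum (g := fun B => c 𝒢 B) ?_).trans
      (sum_le_sum_of_subset (filter_subset _ _))
    intro B hB
    have := (mem_filter.1 hB).2
    omega
  rw [sum_c h3, sum_const, smul_eq_mul, mul_one] at h4
  omega

lemma not_15 : 15 ∉ S 7 3 := by
  rintro ⟨𝒜, hl, hmax, hcard⟩
  obtain ⟨𝒢, ℋ, hsum, hG3, hH3, hG, hH⟩ := structure_of_max hl hmax
  have h1 := count_ineq hG3 hG
  have h2 := count_ineq hH3 hH
  rw [hcard] at hsum
  have h3 : (𝒢.card = 7 ∧ ℋ.card = 8) ∨ (𝒢.card = 8 ∧ ℋ.card = 7) := by omega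
  rcases h3 with ⟨h4, h5⟩ | ⟨h4, h5⟩
  · exact core hG3 h4 (by rw [hG, h5])
  · exact core hH3 h5 (by rw [hH, h4])

lemma lower_14 {m : ℕ} (hm : m ∈ S 7 3) : 14 ≤ m := by
  obtain ⟨𝒜, hl, hmax, hcard⟩ := hm
  obtain ⟨𝒢, ℋ, hsum, hG3, hH3, hG, hH⟩ := structure_of_max hl hmax
  have h1 := count_ineq hG3 hG
  have h2 := count_ineq hH3 hH
  omega

/-- the lines of the Fano plane and their complements -/
def fano : Finset (Finset (Fin 7)) :=
  {{0, 1, 2}, {0, 3, 4}, {0, 5, 6}, {1, 3, 5}, {1, 4, 6}, {2, 3, 6}, {2, 4, 5},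
   {3, 4, 5, 6}, {1, 2, 5, 6}, {1, 2, 3, 4}, {0, 2, 4, 6}, {0, 2, 3, 5}, {0, 1, 4, 5}, {0, 1, 3, 6}}

set_option maxRecDepth 100000 in
lemma fano_anti : ∀ A ∈ fano, ∀ B ∈ fano, A ≠ B → ¬ A ⊆ B := by decide

set_option maxRecDepth 100000 in
lemma fano_cover : ∀ X : Finset (Fin 7), ∃ A ∈ fano, A ⊆ X ∨ X ⊆ A := by decide

set_option maxRecDepth 100000 in
lemma fano_levels : ∀ A ∈ fano, A.card = 3 ∨ A.card = 3 + 1 := by decide

set_option maxRecDepth 100000 in
lemma fano_card : fano.card = 14 := by decide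

lemma mem_14 : 14 ∈ S 7 3 := by
  refine ⟨fano, fano_levels, ⟨?_, ?_⟩, fano_card⟩
  · intro A hA B hB hne
    exact fano_anti A hA B hB hne
  · intro X hX hanti
    obtain ⟨A, hA, h⟩ := fano_cover X
    have hne : A ≠ X := by
      rintro rfl
      exact hX hA
    rcases h with h | h
    · exact hanti (mem_coe.2 (mem_insert_of_mem hA)) (mem_coe.2 (mem_insert_self X fano)) hne h
    · exact hanti (mem_coe.2 (mem_insert_self X fano)) (mem_coe.2 (mem_insert_of_mem hA))
        hne.symm h

lemma T_73 : T 7 3 = 29 := by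
  unfold T
  have h1 : ⌈(((7 : ℕ) : ℚ) - ((3 : ℕ) : ℚ)) / 2⌉ = 2 := by
    rw [Int.ceil_eq_iff]
    norm_num
  rw [h1]
  have h2 : Nat.choose 7 (3 + 1) = 35 := by rfl
  rw [h2]
  norm_num

/-- The statement that every integer from `min S(n,l)` to `T(n,l)` lies in `S(n,l)` is false: for
`n = 7`, `l = 3` the minimum of `S(7,3)` is `14`, `T(7,3) = 29`, but `15 ∉ S(7,3)`. -/
theorem result :
    (¬ ∀ n l : ℕ, 3 ≤ l → (l : ℤ) ≤ ⌈(n : ℚ) / 2⌉ → ∀ m : ℕ, sInf (S n l) ≤ m →
      (m : ℤ) ≤ T n l → m ∈ S n l) ∧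
    IsLeast (S 7 3) 14 ∧ T 7 3 = 29 ∧ 15 ∉ S 7 3 := by
  have hleast : IsLeast (S 7 3) 14 := ⟨mem_14, fun m hm => lower_14 hm⟩
  refine ⟨fun h => ?_, hleast, T_73, not_15⟩
  apply not_15
  apply h 7 3 le_rfl
  · have h1 : ⌈((7 : ℕ) : ℚ) / 2⌉ = 4 := by
      rw [Int.ceil_eq_iff]
      norm_num
    rw [h1]
    norm_num
  · rw [hleast.csInf_eq]
    norm_num
  · rw [T_73]
    norm_num

end Pool.Agent.Results.MP_6c6cee_co.Gap
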